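import Mathlib
import Pool.Agent.H76.LensA

namespace Pool.Agent.Results.MP_1b0b4e_gt.Exists

open MvPolynomial Finset Pool.Agent.H76.LensA

/-- `ξ = exp (2 π i / q)`. -/
noncomputable def xi (q : ℕ) : ℂ := Complex.exp (2 * Real.pi * Complex.I / q)

/-- The generator `g (z_1, …, z_n) = (ξ^{s_1} z_1, …, ξ^{s_n} z_n)`. -/
noncomputable def gen (q : ℕ) {n : ℕ} (s : Fin n → ℕ) (z : EuclideanSpace ℂ (Fin n)) :
    EuclideanSpace ℂ (Fin n) :=
  WithLp.toLp 2 fun j => xi q ^ s j * z j

/-- Complex polynomials on `ℝ^{2n} = ℂ^n`, in `z_j = X (inl j)` and `conj z_j = X (inr j)`. -/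
abbrev Pol (n : ℕ) := MvPolynomial (Fin n ⊕ Fin n) ℂ

/-- The Euclidean Laplacian `4 ∑ ∂²/∂z_j ∂(conj z_j)`. -/
noncomputable def lap {n : ℕ} (p : Pol n) : Pol n :=
  4 * ∑ j, pderiv (Sum.inl j) (pderiv (Sum.inr j) p)

/-- The polynomial `p ∘ g`. -/
noncomputable def act (q : ℕ) {n : ℕ} (s : Fin n → ℕ) (p : Pol n) : Pol n :=
  aeval (Sum.elim (fun j => C (xi q ^ s j) * X (Sum.inl j))
    fun j => C ((starRingEnd ℂ) (xi q ^ s j)) * X (Sum.inr j)) p

/-- `g`-invariant harmonic homogeneous polynomials of degree `k`: the eigenspace of the Laplacian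
of `L(q; s)` for the eigenvalue `k (k + 2 n - 2)`. -/
noncomputable def Harm (q : ℕ) {n : ℕ} (s : Fin n → ℕ) (k : ℕ) : Submodule ℂ (Pol n) where
  carrier := {p | p.IsHomogeneous k ∧ lap p = 0 ∧ act q s p = p}
  add_mem' := by
    rintro a b ⟨a1, a2, a3⟩ ⟨b1, b2, b3⟩
    refine ⟨a1.add b1, ?_, ?_⟩
    · simp only [lap, map_add, sum_add_distrib, mul_add] at a2 b2 ⊢
      rw [a2, b2, add_zero]
    · simp only [act, map_add] at a3 b3 ⊢
      rw [a3, b3]
  zero_mem' := ⟨isHomogeneous_zero _ _ _, by simp [lap], by simp [act]⟩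
  smul_mem' := by
    rintro c a ⟨a1, a2, a3⟩
    refine ⟨(homogeneousSubmodule _ ℂ k).smul_mem c a1, ?_, ?_⟩
    · simp only [lap, Derivation.map_smul, ← smul_sum, mul_smul_comm] at a2 ⊢
      rw [a2, smul_zero]
    · simp only [act, map_smul] at a3 ⊢
      rw [a3]

/-- Some `A ∈ O(2n)` conjugates the group generated by `gen q s` onto that of `gen q s'`. -/
def Conj (q : ℕ) {n : ℕ} (s s' : Fin n → ℕ) : Prop :=
  ∃ A : EuclideanSpace ℂ (Fin n) ≃ₗᵢ[ℝ] EuclideanSpace ℂ (Fin n),
    (∀ a : ℕ, ∃ b : ℕ, ∀ z, A ((gen q s)^[a] z) = (gen q s')^[b] (A z)) ∧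
    (∀ b : ℕ, ∃ a : ℕ, ∀ z, A ((gen q s)^[a] z) = (gen q s')^[b] (A z))

lemma prim : IsPrimitiveRoot (xi 25) 25 := by
  have := Complex.isPrimitiveRoot_exp 25 (by norm_num)
  simpa [xi] using this

noncomputable def ch (a : G) : ℂ := xi 25 ^ a.val

lemma ch_nat (m : ℕ) : ch (m : G) = xi 25 ^ m := by
  rw [ch, ZMod.val_natCast]
  conv_rhs => rw [← Nat.mod_add_div m 25, pow_add, pow_mul, prim.pow_eq_one, one_pow, mul_one]

lemma ch_add (a b : G) : ch (a + b) = ch a * ch b := by
  rw [← ZMod.natCast_zmod_val a, ← ZMod.natCast_zmod_val b, ← Nat.cast_add, ch_nat, ch_nat, ch_nat,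
    pow_add]

lemma ch_zero : ch 0 = 1 := by simp [ch]

lemma ch_nsmul (m : ℕ) (a : G) : ch (m • a) = ch a ^ m := by
  induction m with
  | zero => simp [ch_zero]
  | succ m ih => rw [succ_nsmul, ch_add, ih, pow_succ]

lemma ch_sum {ι : Type*} (s : Finset ι) (f : ι → G) : ch (∑ i ∈ s, f i) = ∏ i ∈ s, ch (f i) := by
  classical
  induction s using Finset.induction_on with
  | empty => simp [ch_zero]
  | insert a s ha ih => rw [prod_insert ha, sum_insert ha, ch_add, ih]

lemma ch_inj {a b : G} (h : ch a = ch b) : a = b :=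
  ZMod.val_injective 25 (prim.pow_inj (ZMod.val_lt a) (ZMod.val_lt b) h)

lemma ch_conj (a : G) : (starRingEnd ℂ) (ch a) = ch (-a) := by
  have h1 : ch a * ch (-a) = 1 := by rw [← ch_add, add_neg_cancel, ch_zero]
  have h2 : ‖ch a‖ = 1 := by
    rw [ch, norm_pow, prim.norm'_eq_one (by norm_num), one_pow]
  rw [← Complex.inv_eq_conj h2]
  exact (eq_inv_of_mul_eq_one_right h1).symm

abbrev Ex := (Fin 19 ⊕ Fin 19) →₀ ℕ

def W (s : Fin 19 → ℕ) (e : Ex) : G := ∑ i, e i • wt s i

lemma act_monomial (s : Fin 19 → ℕ) (e : Ex) (c : ℂ) :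
    act 25 s (monomial e c) = monomial e (ch (W s e) * c) := by
  have : (Sum.elim (fun j => C (xi 25 ^ s j) * X (Sum.inl j))
      fun j => C ((starRingEnd ℂ) (xi 25 ^ s j)) * X (Sum.inr j) : Fin 19 ⊕ Fin 19 → Pol 19) =
      fun i => C (ch (wt s i)) * X i := by
    funext i
    rcases i with j | j
    · simp [wt, ch_nat]
    · simp only [wt, Sum.elim_inr]; rw [← ch_conj, ch_nat]
  rw [act, this, aeval_monomial, monomial_eq, Finsupp.prod_fintype _ _ (by simp),
    Finsupp.prod_fintype _ _ (by simp), W, ch_sum]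
  simp only [mul_pow, prod_mul_distrib, ch_nsmul, map_mul, map_prod, map_pow, algebraMap_eq]
  ring

lemma coeff_act (s : Fin 19 → ℕ) (p : Pol 19) (e : Ex) :
    coeff e (act 25 s p) = ch (W s e) * coeff e p := by
  classical
  induction p using MvPolynomial.induction_on' with
  | monomial d c =>
    rw [act_monomial, coeff_monomial, coeff_monomial]
    split_ifs with h
    · rw [h]
    · simp
  | add p q hp hq =>
    simp only [act, map_add, coeff_add] at hp hq ⊢
    rw [hp, hq, mul_add]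

def S (s : Fin 19 → ℕ) (k : ℕ) : Set Ex := {e | ∑ i, e i = k ∧ W s e = 0}

noncomputable def V (s : Fin 19 → ℕ) (k : ℕ) : Submodule ℂ (Pol 19) := restrictSupport ℂ (S s k)

lemma mem_V (s : Fin 19 → ℕ) (k : ℕ) (p : Pol 19) :
    p ∈ V s k ↔ p.IsHomogeneous k ∧ act 25 s p = p := by
  have hw : ∀ e : Ex, Finsupp.weight (1 : Fin 19 ⊕ Fin 19 → ℕ) e = ∑ i, e i := by
    intro e
    rw [Finsupp.weight_apply, Finsupp.sum_fintype _ _ (by simp)]
    simp
  rw [V, mem_restrictSupport_iff]
  constructor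
  · intro h
    refine ⟨fun e he => ?_, ?_⟩
    · rw [hw]; exact (h (mem_support_iff.2 he)).1
    · ext e
      rw [coeff_act]
      by_cases he : coeff e p = 0
      · simp [he]
      · rw [(h (mem_support_iff.2 he)).2, ch_zero, one_mul]
  · rintro ⟨h1, h2⟩ e he
    have he' : coeff e p ≠ 0 := mem_support_iff.1 he
    refine ⟨by rw [← hw]; exact h1 he', ch_inj ?_⟩
    have := coeff_act s p e
    rw [h2] at this
    rw [ch_zero]
    exact (mul_eq_right₀ he').1 this.symm

lemma S_eq (s : Fin 19 → ℕ) (k : ℕ) : S s k =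
    ↑((finsuppAntidiag (univ : Finset (Fin 19 ⊕ Fin 19)) k).filter
      fun e => ∑ i, e i • wt s i = 0) := by
  ext e
  simp only [S, W, Set.mem_ofPred_eq, coe_filter, mem_finsuppAntidiag, subset_univ, and_true]

instance finV (s : Fin 19 → ℕ) (k : ℕ) : Module.Finite ℂ (V s k) := by
  have : Finite (S s k) := by rw [S_eq]; exact Finset.finite_toSet _
  exact Module.Finite.of_basis (basisRestrictSupport ℂ (S s k))

lemma rankV (s : Fin 19 → ℕ) (k : ℕ) : Module.finrank ℂ (V s k) = cnt s k := by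
  rw [V, Module.finrank_eq_nat_card_basis (basisRestrictSupport ℂ (S s k)), S_eq, cnt]
  simp only [coe_sort_coe, Nat.card_eq_fintype_card, Fintype.card_coe]

noncomputable def D : Pol 19 →ₗ[ℂ] Pol 19 :=
  ∑ j : Fin 19, (pderiv (R := ℂ) (Sum.inl j : Fin 19 ⊕ Fin 19)).toLinearMap ∘ₗ
    (pderiv (R := ℂ) (Sum.inr j : Fin 19 ⊕ Fin 19)).toLinearMap

noncomputable def pr (j : Fin 19) : Ex := Finsupp.single (Sum.inl j) 1 + Finsupp.single (Sum.inr j) 1

lemma D_apply (p : Pol 19) : D p = ∑ j, pderiv (Sum.inl j) (pderiv (Sum.inr j) p) := by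
  simp [D, LinearMap.sum_apply]

lemma term (e : Ex) (j : Fin 19) :
    pderiv (Sum.inl j) (pderiv (Sum.inr j) (monomial e (1 : ℂ) : Pol 19)) = 0 ∨
    ∃ e' : Ex, e = e' + pr j ∧
      pderiv (Sum.inl j) (pderiv (Sum.inr j) (monomial e (1 : ℂ) : Pol 19)) =
        (((e' (Sum.inr j) + 1) * (e' (Sum.inl j) + 1) : ℕ) : ℂ) • monomial e' (1 : ℂ) := by
  rw [pderiv_monomial, pderiv_monomial]
  have e1 : (e - Finsupp.single (Sum.inr j) 1 : Ex) (Sum.inl j) = e (Sum.inl j) := by simp
  rw [e1]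
  rcases Nat.eq_zero_or_pos (e (Sum.inr j)) with h | h
  · left; simp [h]
  rcases Nat.eq_zero_or_pos (e (Sum.inl j)) with h' | h'
  · left; simp [h']
  right
  refine ⟨e - Finsupp.single (Sum.inr j) 1 - Finsupp.single (Sum.inl j) 1, ?_, ?_⟩
  · ext i
    simp only [pr, Finsupp.add_apply, Finsupp.tsub_apply, Finsupp.single_apply]
    split_ifs with a b b
    · rw [← a] at b; cases b
    · subst a; omega
    · subst b; omega
    · omega
  · rw [smul_monomial]
    congr 1
    have a1 : (e - Finsupp.single (Sum.inr j) 1 - Finsupp.single (Sum.inl j) 1 : Ex) (Sum.inr j) + 1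
        = e (Sum.inr j) := by simp; omega
    have a2 : (e - Finsupp.single (Sum.inr j) 1 - Finsupp.single (Sum.inl j) 1 : Ex) (Sum.inl j) + 1
        = e (Sum.inl j) := by simp; omega
    rw [a1, a2]; simp

lemma sum_pr (e : Ex) (j : Fin 19) : ∑ i, (e + pr j) i = ∑ i, e i + 2 := by
  simp only [pr, Finsupp.add_apply, sum_add_distrib, Finsupp.single_apply, sum_ite_eq, mem_univ,
    if_true]

lemma W_pr (s : Fin 19 → ℕ) (e : Ex) (j : Fin 19) : W s (e + pr j) = W s e := by
  simp only [W, pr, Finsupp.add_apply, add_nsmul, sum_add_distrib, Finsupp.single_apply, ite_smul,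
    one_smul, zero_smul, sum_ite_eq, mem_univ, if_true, wt, Sum.elim_inl, Sum.elim_inr]
  ring

lemma mono_mem (s : Fin 19 → ℕ) (k : ℕ) (e : Ex) (he : e ∈ S s k) :
    (monomial e (1 : ℂ) : Pol 19) ∈ V s k := (monomial_mem_restrictSupport ℂ).2 (Or.inl he)

lemma map_D (s : Fin 19 → ℕ) (k : ℕ) : (V s (k + 2)).map D = V s k := by
  apply le_antisymm
  · rw [V, restrictSupport_eq_span, Submodule.map_span, Submodule.span_le]
    rintro _ ⟨_, ⟨e, he, rfl⟩, rfl⟩
    rw [SetLike.mem_coe, D_apply]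
    refine Submodule.sum_mem _ fun j _ => ?_
    rcases term e j with h | ⟨e', rfl, h⟩
    · rw [h]; exact Submodule.zero_mem _
    · rw [h]
      refine Submodule.smul_mem _ _ (mono_mem s k e' ⟨?_, ?_⟩)
      · have := he.1; rw [sum_pr] at this; omega
      · have := he.2; rwa [W_pr] at this
  · have key : ∀ m : ℕ, ∀ e ∈ S s k, k - e (Sum.inl 0) = m →
        (monomial e (1 : ℂ) : Pol 19) ∈ (V s (k + 2)).map D := by
      intro m
      induction m using Nat.strong_induction_on with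
      | _ m ih =>
      intro e he hm
      have hmem : D (monomial (e + pr 0) (1 : ℂ)) ∈ (V s (k + 2)).map D :=
        Submodule.mem_map_of_mem (mono_mem s _ _ ⟨by rw [sum_pr, he.1], by rw [W_pr, he.2]⟩)
      rw [D_apply, ← add_sum_erase _ _ (mem_univ (0 : Fin 19))] at hmem
      have hrest : ∑ j ∈ univ.erase (0 : Fin 19), pderiv (Sum.inl j) (pderiv (Sum.inr j)
          (monomial (e + pr 0) (1 : ℂ) : Pol 19)) ∈ (V s (k + 2)).map D := by
        refine Submodule.sum_mem _ fun j hj => ?_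
        have hj0 : j ≠ 0 := (mem_erase.1 hj).1
        rcases term (e + pr 0) j with h | ⟨e', he', h⟩
        · rw [h]; exact Submodule.zero_mem _
        · rw [h]
          have b1 : ∑ i, e' i = k := by
            have := sum_pr e 0; rw [he', sum_pr, he.1] at this; omega
          have b2 : W s e' = 0 := by
            have := W_pr s e 0; rwa [he', W_pr, he.2] at this
          have b3 : e' (Sum.inl 0) = e (Sum.inl 0) + 1 := by
            have := DFunLike.congr_fun he' (Sum.inl 0)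
            simp [pr, hj0] at this
            omega
          have b4 : e' (Sum.inl 0) ≤ k := by
            rw [← b1]; exact single_le_sum (fun _ _ => Nat.zero_le _) (mem_univ _)
          exact Submodule.smul_mem _ _ (ih _ (by omega) e' ⟨b1, b2⟩ rfl)
      have h0 := (Submodule.add_mem_iff_left _ hrest).1 hmem
      rw [pderiv_monomial, pderiv_monomial] at h0
      have e1 : e + pr 0 - Finsupp.single (Sum.inr 0) 1 - Finsupp.single (Sum.inl 0) 1 = e := by
        ext i
        simp only [pr, Finsupp.add_apply, Finsupp.tsub_apply]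
        omega
      rw [e1] at h0
      set c : ℂ := 1 * (((e + pr 0 : Ex) (Sum.inr 0) : ℕ) : ℂ) *
        (((e + pr 0 - Finsupp.single (Sum.inr 0) 1 : Ex) (Sum.inl 0) : ℕ) : ℂ) with hc
      have hc0 : c ≠ 0 := by
        refine mul_ne_zero (mul_ne_zero one_ne_zero ?_) ?_ <;> rw [Nat.cast_ne_zero] <;> simp [pr]
      have := Submodule.smul_mem _ c⁻¹ h0
      rwa [smul_monomial, smul_eq_mul, inv_mul_cancel₀ hc0] at this
    rw [V, restrictSupport_eq_span ℂ (S s k), Submodule.span_le]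
    rintro _ ⟨e, he, rfl⟩
    exact key _ e he rfl

lemma Harm_eq (s : Fin 19 → ℕ) (k : ℕ) : Harm 25 s k = LinearMap.ker D ⊓ V s k := by
  ext p
  rw [Submodule.mem_inf, mem_V, LinearMap.mem_ker, D_apply]
  change p.IsHomogeneous k ∧ lap p = 0 ∧ act 25 s p = p ↔ _
  have : lap p = 0 ↔ ∑ j, pderiv (Sum.inl j) (pderiv (Sum.inr j) p) = 0 := by
    rw [lap, mul_eq_zero]
    have h4 : (4 : Pol 19) ≠ 0 := by
      have : (4 : Pol 19) = C 4 := rfl
      rw [this, Ne, C_eq_zero]; norm_num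
    simp [h4]
  tauto

lemma rank_null (s : Fin 19 → ℕ) (k : ℕ) :
    Module.finrank ℂ ((V s k).map D) + Module.finrank ℂ (Harm 25 s k) = cnt s k := by
  have := LinearMap.finrank_range_add_finrank_ker (D.domRestrict (V s k))
  rw [LinearMap.range_domRestrict, LinearMap.ker_domRestrict, rankV] at this
  rw [← this, Harm_eq]
  congr 1
  rw [← Submodule.finrank_map_subtype_eq, Submodule.map_comap_subtype, inf_comm]

lemma map_small (s : Fin 19 → ℕ) (k : ℕ) (hk : k < 2) : (V s k).map D = ⊥ := by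
  rw [eq_bot_iff, V, restrictSupport_eq_span, Submodule.map_span, Submodule.span_le]
  rintro _ ⟨_, ⟨e, he, rfl⟩, rfl⟩
  rw [SetLike.mem_coe, D_apply]
  refine Submodule.sum_mem _ fun j _ => ?_
  rcases term e j with h | ⟨e', rfl, -⟩
  · rw [h]; exact Submodule.zero_mem _
  · have := he.1; rw [sum_pr] at this; omega

lemma iter (s : Fin 19 → ℕ) (a : ℕ) (z : EuclideanSpace ℂ (Fin 19)) (j : Fin 19) :
    ((gen 25 s)^[a] z) j = ch ((a * s j : ℕ) : G) * z j := by
  rw [ch_nat]
  induction a with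
  | zero => simp
  | succ a ih =>
    rw [Function.iterate_succ_apply', gen]
    simp only [ih]
    ring

lemma notConj : ¬ Conj 25 sA sB := by
  rintro ⟨A, h, -⟩
  obtain ⟨b, hb⟩ := h 1
  have hfin : ∀ t : G, ∃ j : Fin 19, ∀ i : Fin 19,
      t * (sB i : G) ≠ (sA j : G) ∧ t * (sB i : G) ≠ -(sA j : G) := by decide +kernel
  obtain ⟨j, hj⟩ := hfin (b : G)
  set z : EuclideanSpace ℂ (Fin 19) := EuclideanSpace.single j 1 with hz
  set α : ℂ := ch (sA j : G) with hα
  have hre : α + ch (-(sA j : G)) = ((2 * α.re : ℝ) : ℂ) := by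
    rw [← ch_conj, Complex.add_conj]
  have hquad : (gen 25 sA)^[1] ((gen 25 sA)^[1] z) + z = (2 * α.re) • (gen 25 sA)^[1] z := by
    ext i
    simp only [PiLp.add_apply, PiLp.smul_apply, iter, one_mul, Complex.real_smul]
    by_cases hi : i = j
    · subst hi
      have h1 : α * ch (-(sA i : G)) = 1 := by rw [hα, ← ch_add, add_neg_cancel, ch_zero]
      rw [← hre, ← hα]
      linear_combination (-(z i)) * h1
    · simp [hz, hi]
  have hA := congrArg A hquad
  rw [map_add, LinearIsometryEquiv.map_smul, hb, hb] at hA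
  have hz0 : A z = 0 := by
    ext i
    have hi := congrArg (fun v : EuclideanSpace ℂ (Fin 19) => v i) hA
    simp only [PiLp.add_apply, PiLp.smul_apply, iter, Complex.real_smul] at hi
    rw [← hre] at hi
    have h1 : α * ch (-(sA j : G)) = 1 := by rw [hα, ← ch_add, add_neg_cancel, ch_zero]
    set β : ℂ := ch ((b * sB i : ℕ) : G) with hβ
    have n1 : β - α ≠ 0 := by
      rw [sub_ne_zero]; intro h'
      exact (hj i).1 (by simpa using ch_inj h')
    have n2 : β - ch (-(sA j : G)) ≠ 0 := by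
      rw [sub_ne_zero]; intro h'
      exact (hj i).2 (by simpa using ch_inj h')
    have : (β - α) * (β - ch (-(sA j : G))) * (A z) i = 0 := by
      linear_combination hi + (A z) i * h1
    simpa [n1, n2] using this
  have : z = 0 := A.injective (by rw [hz0, map_zero])
  have := congrArg (fun v : EuclideanSpace ℂ (Fin 19) => v j) this
  simp [hz] at this

theorem result : ∃ (n q : ℕ) (s s' : Fin n → ℕ), 2 ≤ n ∧ 3 ≤ q ∧ Nat.totient q / 2 ∣ n + 1 ∧
    (∀ j, Nat.Coprime (s j) q) ∧ (∀ j, Nat.Coprime (s' j) q) ∧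
    (∀ k, Module.Finite ℂ (Harm q s k) ∧ Module.Finite ℂ (Harm q s' k) ∧
      Module.finrank ℂ (Harm q s k) = Module.finrank ℂ (Harm q s' k)) ∧
    ¬ Conj q s s' := by
  refine ⟨19, 25, sA, sB, by norm_num, by norm_num, by decide, by decide, by decide, fun k => ?_,
    notConj⟩
  have fin : ∀ s : Fin 19 → ℕ, Module.Finite ℂ (Harm 25 s k) := by
    intro s
    rw [Harm_eq]
    exact Submodule.finiteDimensional_of_le (inf_le_right (a := LinearMap.ker D) (b := V s k))
  refine ⟨fin _, fin _, ?_⟩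
  have a := rank_null sA k
  have b := rank_null sB k
  rcases lt_or_ge k 2 with hk | hk
  · rw [map_small _ _ hk, finrank_bot] at a b
    have := cnt_AB k
    omega
  · obtain ⟨m, rfl⟩ := Nat.exists_eq_add_of_le' hk
    rw [map_D, rankV] at a b
    have := cnt_AB (m + 2)
    have := cnt_AB m
    omega

end Pool.Agent.Results.MP_1b0b4e_gt.Exists
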